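import Pool.Agent.helper19.HF.SpecA

/-!
# Row hf:BES (MP_bf63dc_nt): Bessel inequality on a product space
-/

set_option autoImplicit false

namespace Pool.Agent.HF

open Finset

/-- averaging over one coordinate -/
theorem BES_upd {n : ℕ} {W : Type} [Fintype W] (h : Fin n) (f : (Fin n → W) → ℝ) :
    ∑ ω : Fin n → W, ∑ w : W, f (Function.update ω h w) = Fintype.card W * ∑ ω, f ω := by
  classical
  have e : ∑ x : (Fin n → W) × W, f (Function.update x.1 h x.2) = ∑ x : (Fin n → W) × W, f x.1 := by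
    refine Finset.sum_nbij' (fun x => (Function.update x.1 h x.2, x.1 h))
      (fun x => (Function.update x.1 h x.2, x.1 h)) ?_ ?_ ?_ ?_ ?_
    · simp
    · simp
    · intro x _; simp
    · intro x _; simp
    · intro x _; simp
  rw [Fintype.sum_prod_type] at e
  rw [e, Fintype.sum_prod_type]
  simp [Finset.mul_sum]

/-- the centred function -/
noncomputable def BES_D {n : ℕ} {W K : Type} [Fintype W] (Φ : Fin n → (Fin n → W) → K → W → ℝ) (h : Fin n) (k : K)
    (ω : Fin n → W) : ℝ :=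
  Φ h ω k (ω h) - Av (fun w => Φ h ω k w)

theorem BES_same {n : ℕ} {W K : Type} [Fintype W] (S : Finset (Fin n))
    (Φ : Fin n → (Fin n → W) → K → W → ℝ)
    (hS : ∀ h k w ω ω', (∀ i ∈ S, ω i = ω' i) → Φ h ω k w = Φ h ω' k w) (h h' : Fin n) (hh : h ∉ S)
    (k : K) (ω : Fin n → W) (w u : W) : Φ h' (Function.update ω h w) k u = Φ h' ω k u := by
  apply hS
  intro i hi
  rw [Function.update_of_ne]
  rintro rfl
  exact hh hi

theorem BES_ind {n : ℕ} {W K : Type} [Fintype W] (S : Finset (Fin n))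
    (Φ : Fin n → (Fin n → W) → K → W → ℝ)
    (hS : ∀ h k w ω ω', (∀ i ∈ S, ω i = ω' i) → Φ h ω k w = Φ h ω' k w) (h h' : Fin n) (hh : h ∉ S)
    (hne : h' ≠ h) (k : K) (ω : Fin n → W) (w : W) :
    BES_D Φ h' k (Function.update ω h w) = BES_D Φ h' k ω := by
  unfold BES_D
  simp only [BES_same S Φ hS h h' hh]
  rw [Function.update_of_ne hne]

theorem BES_self {n : ℕ} {W K : Type} [Fintype W] (S : Finset (Fin n))
    (Φ : Fin n → (Fin n → W) → K → W → ℝ)
    (hS : ∀ h k w ω ω', (∀ i ∈ S, ω i = ω' i) → Φ h ω k w = Φ h ω' k w) (h : Fin n) (hh : h ∉ S)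
    (k : K) (ω : Fin n → W) (w : W) :
    BES_D Φ h k (Function.update ω h w) = Φ h ω k w - Av (fun u => Φ h ω k u) := by
  unfold BES_D
  simp only [BES_same S Φ hS h h hh]
  rw [Function.update_self]

theorem BES_av {W : Type} [Fintype W] [Nonempty W] (f : W → ℝ) :
    (Fintype.card W : ℝ) * Av f = ∑ w, f w := by
  have hW : (Fintype.card W : ℝ) ≠ 0 := by
    have := Fintype.card_pos (α := W)
    positivity
  unfold Av
  field_simp

theorem BES_zero {n : ℕ} {W K : Type} [Fintype W] [Nonempty W] (S : Finset (Fin n))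
    (Φ : Fin n → (Fin n → W) → K → W → ℝ)
    (hS : ∀ h k w ω ω', (∀ i ∈ S, ω i = ω' i) → Φ h ω k w = Φ h ω' k w) (h h' : Fin n) (hh : h ∉ S)
    (hne : h' ≠ h) (k : K) : ∑ ω : Fin n → W, BES_D Φ h k ω * BES_D Φ h' k ω = 0 := by
  have hW : (Fintype.card W : ℝ) ≠ 0 := by
    have := Fintype.card_pos (α := W)
    positivity
  have h1 := BES_upd h (fun ω => BES_D Φ h k ω * BES_D Φ h' k ω)
  have h2 : ∑ ω : Fin n → W, ∑ w : W, BES_D Φ h k (Function.update ω h w) * BES_D Φ h' k (Function.update ω h w) = 0 := by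
    apply Finset.sum_eq_zero
    intro ω _
    simp only [BES_ind S Φ hS h h' hh hne, BES_self S Φ hS h hh]
    rw [← Finset.sum_mul, Finset.sum_sub_distrib]
    simp only [Finset.sum_const, Finset.card_univ, nsmul_eq_mul]
    rw [BES_av]
    simp
  rw [h2] at h1
  rcases mul_eq_zero.1 h1.symm with h3 | h3
  · exact absurd h3 hW
  · exact h3

theorem BES_sq {n : ℕ} {W K : Type} [Fintype W] [Nonempty W] (S : Finset (Fin n))
    (Φ : Fin n → (Fin n → W) → K → W → ℝ) (hΦ : ∀ h ω k w, |Φ h ω k w| ≤ 1)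
    (hS : ∀ h k w ω ω', (∀ i ∈ S, ω i = ω' i) → Φ h ω k w = Φ h ω' k w) (h : Fin n) (hh : h ∉ S)
    (k : K) : ∑ ω : Fin n → W, BES_D Φ h k ω ^ 2 ≤ Fintype.card (Fin n → W) := by
  have hW : (0 : ℝ) < (Fintype.card W : ℝ) := by
    have := Fintype.card_pos (α := W)
    exact_mod_cast this
  have h1 := BES_upd h (fun ω => BES_D Φ h k ω ^ 2)
  have h2 : ∑ ω : Fin n → W, ∑ w : W, BES_D Φ h k (Function.update ω h w) ^ 2 ≤ ∑ ω : Fin n → W, (Fintype.card W : ℝ) := by
    apply Finset.sum_le_sum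
    intro ω _
    simp only [BES_self S Φ hS h hh]
    set A : ℝ := Av (fun u => Φ h ω k u) with hA
    have hA2 : (Fintype.card W : ℝ) * A = ∑ w, Φ h ω k w := BES_av _
    have h3 : ∑ w : W, (Φ h ω k w - A) ^ 2 = ∑ w : W, Φ h ω k w ^ 2 - (Fintype.card W : ℝ) * A ^ 2 := by
      have h4 : ∀ w : W, (Φ h ω k w - A) ^ 2 = Φ h ω k w ^ 2 - (2 * A) * Φ h ω k w + A ^ 2 := fun w => by ring
      simp only [h4]
      rw [Finset.sum_add_distrib, Finset.sum_sub_distrib, ← Finset.mul_sum, ← hA2]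
      simp only [Finset.sum_const, Finset.card_univ, nsmul_eq_mul]
      ring
    rw [h3]
    have h5 : ∑ w : W, Φ h ω k w ^ 2 ≤ ∑ w : W, (1 : ℝ) := by
      apply Finset.sum_le_sum
      intro w _
      have := hΦ h ω k w
      rw [← sq_abs]
      have h6 := abs_nonneg (Φ h ω k w)
      nlinarith
    simp only [Finset.sum_const, Finset.card_univ, nsmul_eq_mul, mul_one] at h5
    have h7 : 0 ≤ (Fintype.card W : ℝ) * A ^ 2 := by positivity
    linarith
  simp only [Finset.sum_const, Finset.card_univ, nsmul_eq_mul] at h2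
  rw [h1] at h2
  have h8 : (Fintype.card W : ℝ) * ∑ ω : Fin n → W, BES_D Φ h k ω ^ 2 ≤ (Fintype.card W : ℝ) * (Fintype.card (Fin n → W) : ℝ) := by
    rw [mul_comm (Fintype.card W : ℝ) (Fintype.card (Fin n → W) : ℝ)]
    exact h2
  exact le_of_mul_le_mul_left h8 hW

theorem BES_key {n : ℕ} {W K : Type} [Fintype W] [Nonempty W] (S : Finset (Fin n))
    (Φ : Fin n → (Fin n → W) → K → W → ℝ) (hΦ : ∀ h ω k w, |Φ h ω k w| ≤ 1)
    (hS : ∀ h k w ω ω', (∀ i ∈ S, ω i = ω' i) → Φ h ω k w = Φ h ω' k w) (k : K) (c : Fin n → ℝ)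
    (hc : ∀ h, c h ^ 2 ≤ 1) :
    ∑ ω : Fin n → W, (∑ h ∈ Sᶜ, c h * BES_D Φ h k ω) ^ 2 ≤ n * Fintype.card (Fin n → W) := by
  have h1 : ∀ ω : Fin n → W, (∑ h ∈ Sᶜ, c h * BES_D Φ h k ω) ^ 2 =
      ∑ h ∈ Sᶜ, ∑ h' ∈ Sᶜ, c h * c h' * (BES_D Φ h k ω * BES_D Φ h' k ω) := by
    intro ω
    rw [sq, Finset.sum_mul_sum]
    apply Finset.sum_congr rfl
    intro h _
    apply Finset.sum_congr rfl
    intro h' _
    ring
  simp only [h1]
  rw [Finset.sum_comm]
  have h2 : ∀ h ∈ Sᶜ, ∑ ω : Fin n → W, ∑ h' ∈ Sᶜ, c h * c h' * (BES_D Φ h k ω * BES_D Φ h' k ω) ≤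
      (Fintype.card (Fin n → W) : ℝ) := by
    intro h hh
    rw [Finset.sum_comm]
    rw [Finset.sum_eq_single_of_mem h hh]
    · rw [← Finset.mul_sum]
      have h3 := BES_sq S Φ hΦ hS h (Finset.mem_compl.1 hh) k
      have h4 : ∑ ω : Fin n → W, BES_D Φ h k ω * BES_D Φ h k ω = ∑ ω : Fin n → W, BES_D Φ h k ω ^ 2 := by
        apply Finset.sum_congr rfl
        intro ω _
        ring
      rw [h4]
      have h5 : 0 ≤ ∑ ω : Fin n → W, BES_D Φ h k ω ^ 2 := Finset.sum_nonneg (fun ω _ => sq_nonneg _)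
      have h6 := hc h
      nlinarith
    · intro h' _ hne
      rw [← Finset.mul_sum, BES_zero S Φ hS h h' (Finset.mem_compl.1 hh) hne k, mul_zero]
  refine (Finset.sum_le_sum h2).trans ?_
  rw [Finset.sum_const, nsmul_eq_mul]
  apply mul_le_mul_of_nonneg_right _ (Nat.cast_nonneg _)
  have h7 : #(Sᶜ) ≤ Fintype.card (Fin n) := Finset.card_le_univ _
  rw [Fintype.card_fin] at h7
  exact_mod_cast h7

theorem BES : BES_stmt := by
  classical
  intro n W K _ _ _ T S Φ hΦ hS
  set N : ℝ := (Fintype.card (Fin n → W) : ℝ) with hN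
  have hN0 : 0 < N := by
    have := Fintype.card_pos (α := Fin n → W)
    rw [hN]
    exact_mod_cast this
  have hd : ∀ h, Av (fun ω : Fin n → W => Φ h ω (T ω) (ω h)) - Av (fun ω : Fin n → W => Av (fun w => Φ h ω (T ω) w)) =
      (∑ ω : Fin n → W, BES_D Φ h (T ω) ω) / N := by
    intro h
    unfold BES_D
    rw [Finset.sum_sub_distrib, sub_div]
    rfl
  simp only [hd]
  have hb : ∀ h ω k, |BES_D Φ h k ω| ≤ 2 := by
    intro h ω k
    have h1 := hΦ h ω k (ω h)
    have h2 : |Av (fun w => Φ h ω k w)| ≤ 1 := by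
      have hW : (0 : ℝ) < (Fintype.card W : ℝ) := by
        have := Fintype.card_pos (α := W)
        exact_mod_cast this
      unfold Av
      rw [abs_div, abs_of_pos hW, div_le_one hW]
      refine (Finset.abs_sum_le_sum_abs _ _).trans ?_
      refine (Finset.sum_le_sum (fun w _ => hΦ h ω k w)).trans ?_
      simp
    unfold BES_D
    rw [abs_le] at *
    constructor <;> linarith [h1.1, h1.2, h2.1, h2.2]
  rw [← Finset.sum_compl_add_sum S]
  apply add_le_add
  · -- the coordinates outside `S`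
    have h1 : ∀ h, ∑ ω : Fin n → W, BES_D Φ h (T ω) ω = ∑ k : K, ∑ ω : Fin n → W, (if T ω = k then 1 else 0) * BES_D Φ h k ω := by
      intro h
      rw [Finset.sum_comm]
      apply Finset.sum_congr rfl
      intro ω _
      simp
    set B : Fin n → K → ℝ := fun h k => ∑ ω : Fin n → W, (if T ω = k then 1 else 0) * BES_D Φ h k ω with hB
    have h2 : ∑ h ∈ Sᶜ, |(∑ ω : Fin n → W, BES_D Φ h (T ω) ω) / N| ≤ (∑ k : K, ∑ h ∈ Sᶜ, |B h k|) / N := by
      rw [Finset.sum_comm, Finset.sum_div]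
      apply Finset.sum_le_sum
      intro h _
      rw [abs_div, abs_of_pos hN0, h1]
      apply div_le_div_of_nonneg_right _ hN0.le
      exact Finset.abs_sum_le_sum_abs _ _
    refine h2.trans ?_
    rw [div_le_iff₀ hN0]
    -- one value of `T`
    have h3 : ∀ k : K, ∑ h ∈ Sᶜ, |B h k| ≤ Real.sqrt (∑ ω : Fin n → W, (if T ω = k then (1 : ℝ) else 0)) * Real.sqrt (n * N) := by
      intro k
      set c : Fin n → ℝ := fun h => if 0 ≤ B h k then 1 else -1 with hc
      have h4 : ∀ h, |B h k| = c h * B h k := by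
        intro h
        simp only [hc]
        split_ifs with h5
        · rw [abs_of_nonneg h5, one_mul]
        · rw [abs_of_neg (not_le.1 h5)]
          ring
      have h6 : ∑ h ∈ Sᶜ, |B h k| = ∑ ω : Fin n → W, (if T ω = k then (1 : ℝ) else 0) * ∑ h ∈ Sᶜ, c h * BES_D Φ h k ω := by
        have h6' : ∑ h ∈ Sᶜ, |B h k| = ∑ h ∈ Sᶜ, ∑ ω : Fin n → W, c h * ((if T ω = k then 1 else 0) * BES_D Φ h k ω) := by
          apply Finset.sum_congr rfl
          intro h _
          rw [h4 h, ← Finset.mul_sum]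
        rw [h6', Finset.sum_comm]
        apply Finset.sum_congr rfl
        intro ω _
        rw [Finset.mul_sum]
        apply Finset.sum_congr rfl
        intro h _
        ring
      rw [h6, ← Real.sqrt_mul (Finset.sum_nonneg (fun ω _ => by split_ifs <;> norm_num))]
      apply Real.le_sqrt_of_sq_le
      refine (Finset.sum_mul_sq_le_sq_mul_sq _ _ _).trans ?_
      have h7 : ∑ ω : Fin n → W, (if T ω = k then (1 : ℝ) else 0) ^ 2 = ∑ ω : Fin n → W, (if T ω = k then (1 : ℝ) else 0) := by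
        apply Finset.sum_congr rfl
        intro ω _
        split_ifs <;> norm_num
      rw [h7]
      apply mul_le_mul_of_nonneg_left _ (Finset.sum_nonneg (fun ω _ => by split_ifs <;> norm_num))
      apply BES_key S Φ hΦ hS k c
      intro h
      simp only [hc]
      split_ifs <;> norm_num
    refine (Finset.sum_le_sum (fun k _ => h3 k)).trans ?_
    refine (Real.sum_sqrt_mul_sqrt_le Finset.univ (fun k => Finset.sum_nonneg (fun ω _ => by split_ifs <;> norm_num))
      (fun _ => by positivity)).trans ?_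
    have h8 : ∑ k : K, ∑ ω : Fin n → W, (if T ω = k then (1 : ℝ) else 0) = N := by
      rw [Finset.sum_comm]
      simp [hN]
    rw [h8]
    simp only [Finset.sum_const, Finset.card_univ, nsmul_eq_mul]
    rw [← Real.sqrt_mul hN0.le]
    have h9 : N * ((Fintype.card K : ℝ) * (n * N)) = (n * Fintype.card K) * N ^ 2 := by ring
    rw [h9, Real.sqrt_mul (by positivity), Real.sqrt_sq hN0.le]
  · -- the coordinates in `S`
    have h1 : ∀ h ∈ S, |(∑ ω : Fin n → W, BES_D Φ h (T ω) ω) / N| ≤ 2 := by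
      intro h _
      rw [abs_div, abs_of_pos hN0, div_le_iff₀ hN0]
      refine (Finset.abs_sum_le_sum_abs _ _).trans ?_
      refine (Finset.sum_le_sum (fun ω _ => hb h ω (T ω))).trans ?_
      simp [hN, mul_comm]
    refine (Finset.sum_le_sum h1).trans ?_
    simp [mul_comm]

end Pool.Agent.HF
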