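import Pool.Agent.helper19.HF.SpecA

/-!
# Row hf:ENP (MP_bf63dc_nt): energy pigeonhole
-/

set_option autoImplicit false

namespace Pool.Agent.HF

open Finset

theorem ENP_vl {Ω K K' : Type} [Fintype Ω] (φ : Ω → K) (φ' : Ω → K') (f : Ω → ℝ) (ω₀ : Ω)
    (h : ∀ ω, φ ω = φ ω₀ ↔ φ' ω = φ' ω₀) : vl φ f (φ ω₀) = vl φ' f (φ' ω₀) := by
  have e : @Finset.filter Ω (fun ω => φ ω = φ ω₀) (fun _ => Classical.propDecidable _) univ =
      @Finset.filter Ω (fun ω => φ' ω = φ' ω₀) (fun _ => Classical.propDecidable _) univ := by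
    ext ω
    simp [h]
  unfold vl
  rw [e]

theorem ENP_cons {n b R r : ℕ} (X : Om n b R → Fin n → Fin b → Bool) (g : Fin r → Fin n) (h' h : Fin n) (β : Fin b)
    (ω₀ : Om n b R) :
    y1 X (Fin.cons h' g : Fin (r + 1) → Fin n) h β (inf X (Fin.cons h' g : Fin (r + 1) → Fin n) ω₀, ω₀ h β) =
      y2 X g h' h β (inf X g ω₀, (ω₀ h', X ω₀ h'), ω₀ h β) := by
  unfold y1 y2
  apply ENP_vl (fun ω : Om n b R => (inf X (Fin.cons h' g : Fin (r + 1) → Fin n) ω, ω h β))
    (fun ω : Om n b R => (inf X g ω, (ω h', X ω h'), ω h β)) (lb X h β) ω₀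
  intro ω
  simp only [Prod.mk.injEq]
  have e : inf X (Fin.cons h' g : Fin (r + 1) → Fin n) ω = inf X (Fin.cons h' g : Fin (r + 1) → Fin n) ω₀ ↔
      inf X g ω = inf X g ω₀ ∧ (ω h' = ω₀ h' ∧ X ω h' = X ω₀ h') := by
    constructor
    · intro e
      refine ⟨?_, ?_⟩
      · funext l
        have := congrFun e l.succ
        simpa [inf] using this
      · have := congrFun e 0
        simpa [inf] using this
    · rintro ⟨e1, e2, e3⟩
      funext l
      refine Fin.cases ?_ (fun l => ?_) l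
      · simp [inf, e2, e3]
      · have := congrFun e1 l
        simpa [inf] using this
  rw [e]
  tauto

/-- the energy -/
noncomputable def ENP_E {n b R : ℕ} (X : Om n b R → Fin n → Fin b → Bool) (r : ℕ) : ℝ :=
  ∑ g : Fin r → Fin n, ∑ h, ∑ β, Av fun ω => y1 X g h β (inf X g ω, ω h β) ^ 2

theorem ENP_succ {n b R : ℕ} (X : Om n b R → Fin n → Fin b → Bool) (r : ℕ) :
    ENP_E X (r + 1) = ∑ g : Fin r → Fin n, ∑ h', ∑ h, ∑ β, Av fun ω => y2 X g h' h β (inf X g ω, (ω h', X ω h'), ω h β) ^ 2 := by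
  unfold ENP_E
  rw [← (Fin.consEquiv (fun _ : Fin (r + 1) => Fin n)).sum_comp]
  rw [Fintype.sum_prod_type, Finset.sum_comm]
  apply Finset.sum_congr rfl
  intro g _
  apply Finset.sum_congr rfl
  intro h' _
  apply Finset.sum_congr rfl
  intro h _
  apply Finset.sum_congr rfl
  intro β _
  have e : (Fin.consEquiv (fun _ : Fin (r + 1) => Fin n)) (h', g) = (Fin.cons h' g : Fin (r + 1) → Fin n) := rfl
  rw [e]
  simp only [ENP_cons]

theorem ENP_av_nonneg {Ω : Type} [Fintype Ω] (f : Ω → ℝ) (h : ∀ ω, 0 ≤ f ω) : 0 ≤ Av f := by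
  unfold Av
  exact div_nonneg (Finset.sum_nonneg (fun ω _ => h ω)) (Nat.cast_nonneg _)

theorem ENP_av_le {Ω : Type} [Fintype Ω] (f : Ω → ℝ) (h : ∀ ω, f ω ≤ 1) : Av f ≤ 1 := by
  unfold Av
  rcases Nat.eq_zero_or_pos (Fintype.card Ω) with h0 | h0
  · rw [h0]
    simp
  · have h1 : (0 : ℝ) < (Fintype.card Ω : ℝ) := by exact_mod_cast h0
    rw [div_le_one h1]
    refine (Finset.sum_le_sum (fun ω _ => h ω)).trans ?_
    simp

theorem ENP (h : CND_stmt) : ENP_stmt := by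
  classical
  obtain ⟨hC1, _, hC3⟩ := h
  intro n b R m X hn hR hm
  have hn0 : (0 : ℝ) < (n : ℝ) := by exact_mod_cast hn
  have hm0 : (0 : ℝ) < (m : ℝ) := by exact_mod_cast hm
  have hlb : ∀ (h : Fin n) (β : Fin b) (ω : Om n b R), 0 ≤ lb X h β ω ∧ lb X h β ω ≤ 1 := by
    intro h β ω
    unfold lb
    split_ifs <;> norm_num
  have hE0 : ∀ r, 0 ≤ ENP_E X r := by
    intro r
    unfold ENP_E
    exact Finset.sum_nonneg (fun g _ => Finset.sum_nonneg (fun h _ => Finset.sum_nonneg (fun β _ =>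
      ENP_av_nonneg _ (fun ω => sq_nonneg _))))
  have hE1 : ∀ r, ENP_E X r ≤ (n : ℝ) ^ r * (n * b) := by
    intro r
    unfold ENP_E
    have h1 : ∑ g : Fin r → Fin n, ∑ h, ∑ β, (Av fun ω : Om n b R => y1 X g h β (inf X g ω, ω h β) ^ 2) ≤
        ∑ g : Fin r → Fin n, ∑ h : Fin n, ∑ β : Fin b, (1 : ℝ) := by
      apply Finset.sum_le_sum
      intro g _
      apply Finset.sum_le_sum
      intro h _
      apply Finset.sum_le_sum
      intro β _
      apply ENP_av_le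
      intro ω
      have h2 := hC1 (Om n b R) (Cl r b R × Fin R) (fun ω => (inf X g ω, ω h β)) (lb X h β) (hlb h β) (inf X g ω, ω h β)
      have h3 : 0 ≤ y1 X g h β (inf X g ω, ω h β) := h2.1
      have h4 : y1 X g h β (inf X g ω, ω h β) ≤ 1 := h2.2
      exact pow_le_one₀ h3 h4
    refine h1.trans (le_of_eq ?_)
    simp
  -- the gain of energy
  have hD : ∀ r, ∑ g : Fin r → Fin n, Dl X g = ENP_E X (r + 1) / (n : ℝ) ^ 2 - ENP_E X r / n := by
    intro r
    have h1 : ∀ g : Fin r → Fin n, Dl X g = ((∑ h', ∑ h, ∑ β, Av fun ω : Om n b R => y2 X g h' h β (inf X g ω, (ω h', X ω h'), ω h β) ^ 2) -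
        n * (∑ h, ∑ β, Av fun ω : Om n b R => y1 X g h β (inf X g ω, ω h β) ^ 2)) / (n : ℝ) ^ 2 := by
      intro g
      unfold Dl
      have h2 : ∀ h' h β, (Av fun ω : Om n b R => (y2 X g h' h β (inf X g ω, (ω h', X ω h'), ω h β) - y1 X g h β (inf X g ω, ω h β)) ^ 2) =
          (Av fun ω : Om n b R => y2 X g h' h β (inf X g ω, (ω h', X ω h'), ω h β) ^ 2) - Av fun ω : Om n b R => y1 X g h β (inf X g ω, ω h β) ^ 2 := by
        intro h' h β
        exact hC3 (Om n b R) (Cl r b R × Fin R) (Cl r b R × (Wb b R × (Fin b → Bool)) × Fin R)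
          (fun ω => (inf X g ω, (ω h', X ω h'), ω h β)) (fun k => (k.1, k.2.2)) (lb X h β)
      simp only [h2, Finset.sum_sub_distrib]
      simp only [Finset.sum_const, Finset.card_univ, Fintype.card_fin, nsmul_eq_mul]
    simp only [h1]
    rw [← Finset.sum_div, Finset.sum_sub_distrib, ← Finset.mul_sum, ← ENP_succ]
    have h3 : (∑ g : Fin r → Fin n, ∑ h, ∑ β, Av fun ω : Om n b R => y1 X g h β (inf X g ω, ω h β) ^ 2) = ENP_E X r := rfl
    rw [h3]
    field_simp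
  -- telescoping
  have hT : ∑ r ∈ range m, (∑ g : Fin r → Fin n, Dl X g) / (n : ℝ) ^ r ≤ ∑ r ∈ range m, (b : ℝ) / m := by
    have h1 : ∀ r ∈ range m, (∑ g : Fin r → Fin n, Dl X g) / (n : ℝ) ^ r = ENP_E X (r + 1) / (n : ℝ) ^ (r + 1 + 1) - ENP_E X r / (n : ℝ) ^ (r + 1) := by
      intro r _
      have e1 : (n : ℝ) ^ 2 * (n : ℝ) ^ r = (n : ℝ) ^ (r + 1 + 1) := by ring
      have e2 : (n : ℝ) * (n : ℝ) ^ r = (n : ℝ) ^ (r + 1) := by ring
      rw [hD, sub_div, div_div, div_div, e1, e2]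
    rw [Finset.sum_congr rfl h1, Finset.sum_range_sub (fun r => ENP_E X r / (n : ℝ) ^ (r + 1))]
    simp only [Finset.sum_const, Finset.card_range, nsmul_eq_mul]
    have h2 : (m : ℝ) * (b / m) = b := by field_simp
    rw [h2]
    have h3 : 0 ≤ ENP_E X 0 / (n : ℝ) ^ (0 + 1) := div_nonneg (hE0 0) (by positivity)
    have h4 : ENP_E X m / (n : ℝ) ^ (m + 1) ≤ b := by
      rw [div_le_iff₀ (by positivity)]
      refine (hE1 m).trans (le_of_eq ?_)
      ring
    linarith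
  obtain ⟨r, hr, hr2⟩ := Finset.exists_le_of_sum_le (by simpa using (Nat.one_le_iff_ne_zero.1 hm)) hT
  refine ⟨r, Finset.mem_range.1 hr, ?_⟩
  rwa [div_le_iff₀ (by positivity)] at hr2

end Pool.Agent.HF
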